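import Pool.Agent.Y874.TP2.Stm

/-!
# TP2-FLOW: the planarity condition in terms of two flows
-/

set_option autoImplicit false

namespace Pool.Agent.Y761.TP2

open Pool.Agent.Y468.SR Pool.Agent.Y874.TP2
open Pool.Agent.Y874.TP (NullV)

/-- a Heisenberg group -/
@[ext] structure Hs where
  /-- first coordinate -/
  a : ℤ
  /-- second coordinate -/
  b : ℤ
  /-- central coordinate -/
  c : ℤ

instance : Mul Hs := ⟨fun x y => ⟨x.a + y.a, x.b + y.b, x.c + y.c + x.a * y.b - y.a * x.b⟩⟩
instance : One Hs := ⟨⟨0, 0, 0⟩⟩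
instance : Inv Hs := ⟨fun x => ⟨-x.a, -x.b, -x.c⟩⟩

theorem mul_a (x y : Hs) : (x * y).a = x.a + y.a := rfl
theorem mul_b (x y : Hs) : (x * y).b = x.b + y.b := rfl
theorem mul_c (x y : Hs) : (x * y).c = x.c + y.c + x.a * y.b - y.a * x.b := rfl
theorem one_a : (1 : Hs).a = 0 := rfl
theorem one_b : (1 : Hs).b = 0 := rfl
theorem one_c : (1 : Hs).c = 0 := rfl
theorem inv_a (x : Hs) : (x⁻¹).a = -x.a := rfl
theorem inv_b (x : Hs) : (x⁻¹).b = -x.b := rfl
theorem inv_c (x : Hs) : (x⁻¹).c = -x.c := rfl

instance : Group Hs where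
  mul_assoc x y z := by
    ext
    · simp only [mul_a]; ring
    · simp only [mul_b]; ring
    · simp only [mul_a, mul_b, mul_c]; ring
  one_mul x := by
    ext
    · simp only [mul_a, one_a]; ring
    · simp only [mul_b, one_b]; ring
    · simp only [mul_c, one_a, one_b, one_c]; ring
  mul_one x := by
    ext
    · simp only [mul_a, one_a]; ring
    · simp only [mul_b, one_b]; ring
    · simp only [mul_c, one_a, one_b, one_c]; ring
  inv_mul_cancel x := by
    ext
    · simp only [mul_a, inv_a, one_a]; ring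
    · simp only [mul_b, inv_b, one_b]; ring
    · simp only [mul_c, inv_a, inv_b, inv_c, one_c]; ring

theorem pc_ab {l : List Hs} {r : Hs} (h : PC l r) :
    r.a = (l.map Hs.a).sum ∧ r.b = (l.map Hs.b).sum := by
  induction h with
  | nil => exact ⟨rfl, rfl⟩
  | cons x g r l _ ih =>
    rw [List.map_cons, List.sum_cons, List.map_cons, List.sum_cons, ← ih.1, ← ih.2]
    simp only [mul_a, mul_b, inv_a, inv_b]
    constructor <;> ring

theorem pc_c {l : List Hs} {r : Hs} (h : PC l r) (hc : ∀ x ∈ l, x.a = 0 ∧ x.b = 0) :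
    r.c = (l.map Hs.c).sum := by
  induction h with
  | nil => rfl
  | cons x g r l _ ih =>
    have hx := hc x (by simp)
    have hl := ih fun y hy => hc y (by simp [hy])
    rw [List.map_cons, List.sum_cons, ← hl]
    simp only [mul_a, mul_b, mul_c, inv_a, inv_b, inv_c, hx.1, hx.2]
    ring

/-- the labels given by a function on the passages -/
noncomputable def lbl (P : List Pass) (F : Pass → Hs) (h : Bool) (c : ℕ) : Hs := by
  classical
  exact if H : ∃ p ∈ P, p.crossing = c ∧ p.isOver = h then F H.choose else 1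

theorem uniq {P : List Pass} (hw : WF P) {p q : Pass} (hp : p ∈ P) (hq : q ∈ P)
    (hc : p.crossing = q.crossing) (ho : p.isOver = q.isOver) : p = q :=
  List.inj_on_of_nodup_map hw.2 hp hq (by simp [hc, ho])

theorem lbl_eq {P : List Pass} (hw : WF P) (F : Pass → Hs) {p : Pass} (hp : p ∈ P) :
    lbl P F p.isOver p.crossing = F p := by
  unfold lbl
  have H : ∃ q ∈ P, q.crossing = p.crossing ∧ q.isOver = p.isOver := ⟨p, hp, rfl, rfl⟩
  rw [dif_pos H]
  congr 1
  exact uniq hw H.choose_spec.1 hp H.choose_spec.2.1 H.choose_spec.2.2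

theorem lbl_eq' {P : List Pass} (hw : WF P) (F : Pass → Hs) {p : Pass} (hp : p ∈ P) {h : Bool}
    {c : ℕ} (h1 : p.isOver = h) (h2 : p.crossing = c) : lbl P F h c = F p := by
  subst h1 h2
  exact lbl_eq hw F hp

/-- one of the two passages of a crossing -/
theorem side {P : List Pass} (hw : WF P) {p : Pass} (hp : p ∈ P) (h : Bool) :
    ∃ q ∈ P, q.crossing = p.crossing ∧ q.isOver = h ∧ q.isPos = p.isPos := by
  by_cases ho : p.isOver = h
  · exact ⟨p, hp, rfl, ho, rfl⟩
  · refine ⟨p.mate, hw.1 p hp, rfl, ?_, rfl⟩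
    show (!p.isOver) = h
    cases h1 : p.isOver <;> cases h2 : h <;> simp_all

/-- the other end lies in the diagram -/
theorem part_mem {P : List Pass} (hw : WF P) {m : ℕ → ℕ} (hm : Matching P m) {p : Pass}
    (hp : p ∈ P) : part m p ∈ P := by
  unfold part
  split_ifs with h
  · exact hw.1 p hp
  · obtain ⟨q, hq, h1, h2, h3⟩ := hm p hp
    obtain ⟨q', hq', k1, k2, k3⟩ := side hw hq p.isOver
    have h4 : q.isPos = !p.isPos := h3 (by rw [h1]; exact h)
    have e : q' = ⟨m p.crossing, p.isOver, !p.isPos⟩ := by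
      obtain ⟨c', o', s'⟩ := q'
      simp only at k1 k2 k3
      rw [k1, k2, k3, h1, h4]
    rw [← e]
    exact hq'

theorem valid_lbl {P : List Pass} (hw : WF P) {m : ℕ → ℕ} (hm : Matching P m) {f g : Pass → ℤ}
    (hfl : ∀ p ∈ P, f (part m p) = -f p ∧ g (part m p) = -g p) :
    Valid P m (lbl P (fun p => ⟨f p, g p, 0⟩) true) (lbl P (fun p => ⟨f p, g p, 0⟩) false) := by
  have hF : ∀ p ∈ P, (⟨f (part m p), g (part m p), 0⟩ : Hs) = (⟨f p, g p, 0⟩ : Hs)⁻¹ := by
    intro p hp
    ext
    · exact (hfl p hp).1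
    · exact (hfl p hp).2
    · show (0 : ℤ) = -0
      rw [neg_zero]
  intro p hp
  obtain ⟨p1, hp1, c1, o1, s1⟩ := side hw hp true
  obtain ⟨p2, hp2, c2, o2, s2⟩ := side hw hp false
  constructor
  · intro h
    have e : part m p1 = p1.mate := by
      unfold part
      rw [if_pos (by rw [c1]; exact h)]
    have h1 := hF p1 hp1
    rw [e] at h1
    have hmate : p1.mate.isOver = false := by
      show (!p1.isOver) = false
      rw [o1]; rfl
    rw [lbl_eq' hw _ hp1 o1 c1, lbl_eq' hw _ (hw.1 p1 hp1) hmate c1]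
    exact h1
  · intro h
    constructor
    · have e : part m p1 = ⟨m p.crossing, true, !p1.isPos⟩ := by
        unfold part
        rw [if_neg (by rw [c1]; exact h), c1, o1]
      have h1 := hF p1 hp1
      rw [lbl_eq' hw _ hp1 o1 c1, lbl_eq' hw _ (part_mem hw hm hp1) (by rw [e]) (by rw [e])]
      exact h1
    · have e : part m p2 = ⟨m p.crossing, false, !p2.isPos⟩ := by
        unfold part
        rw [if_neg (by rw [c2]; exact h), c2, o2]
      have h1 := hF p2 hp2
      rw [lbl_eq' hw _ hp2 o2 c2, lbl_eq' hw _ (part_mem hw hm hp2) (by rw [e]) (by rw [e])]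
      exact h1

theorem val_lbl {P : List Pass} (hw : WF P) (F : Pass → Hs) {p : Pass} (hp : p ∈ P) :
    val (lbl P F true) (lbl P F false) p = F p := by
  unfold val
  split_ifs with h
  · exact lbl_eq' hw F hp h rfl
  · exact lbl_eq' hw F hp (by simpa using h) rfl

theorem wval_lbl {P : List Pass} (hw : WF P) (f g : Pass → ℤ) (W : List Pass)
    (hW : ∀ p ∈ W, p ∈ P) :
    wval (lbl P (fun p => ⟨f p, g p, 0⟩) true) (lbl P (fun p => ⟨f p, g p, 0⟩) false) W =
      ⟨(W.map f).sum, (W.map g).sum, om f g W⟩ := by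
  induction W with
  | nil => rfl
  | cons p W ih =>
    rw [wval_cons, ih fun q hq => hW q (by simp [hq]), val_lbl hw _ (hW p (by simp))]
    ext
    · simp only [mul_a, List.map_cons, List.sum_cons]
    · simp only [mul_b, List.map_cons, List.sum_cons]
    · simp only [mul_c, om]
      ring

/-- summing over all labels -/
theorem sum_labels (L : List (Hs × ℕ)) (S : Finset ℕ) (hS : ∀ x ∈ L, x.2 ∈ S) :
    (L.map fun x => x.1.c).sum = ∑ b ∈ S, ((bv L b).map Hs.c).sum := by
  induction L with
  | nil => simp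
  | cons x L ih =>
    have h1 : ∀ b ∈ S, ((bv (x :: L) b).map Hs.c).sum =
        (if x.2 = b then x.1.c else 0) + ((bv L b).map Hs.c).sum := by
      intro b _
      rw [bv_cons]
      split_ifs
      · rw [List.map_cons, List.sum_cons]
      · rw [zero_add]
    rw [List.map_cons, List.sum_cons, ih fun y hy => hS y (by simp [hy]),
      Finset.sum_congr rfl h1, Finset.sum_add_distrib, Finset.sum_ite_eq, if_pos (hS x (by simp))]

theorem flow : S_FLOW := by
  intro D Q m f g hnd hwf hm hN hfl hQ
  set P := passes (D ++ Q) with hP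
  set F : Pass → Hs := fun p => ⟨f p, g p, 0⟩ with hF
  set o := lbl P F true with ho
  set u := lbl P F false with hu
  have hV : Valid P m o u := valid_lbl hwf hm hfl
  have hw : ∀ C ∈ D ++ Q, wval o u C.1 = ⟨(C.1.map f).sum, (C.1.map g).sum, om f g C.1⟩ :=
    fun C hC => wval_lbl hwf f g C.1 fun p hp => mem_passes.2 ⟨C, hC, hp⟩
  have hcQ : ∀ b, ∀ x ∈ bv (vals o u Q) b, x.a = 0 ∧ x.b = 0 := by
    intro b x hx
    simp only [bv, vals, List.mem_map, List.mem_filter] at hx
    obtain ⟨y, ⟨⟨C, hC, rfl⟩, h1⟩, rfl⟩ := hx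
    rw [hw C (by simp [hC])]
    exact hQ C hC
  have key : ∀ b, (∀ x ∈ bv (vals o u (D ++ Q)) b, x.a = 0 ∧ x.b = 0) := by
    intro b
    have h1 := pc_ab (hN Hs o u hV b)
    rw [vals_append, bv_append] at h1 ⊢
    have z1 : ((bv (vals o u Q) b).map Hs.a).sum = 0 := by
      refine List.sum_eq_zero fun y hy => ?_
      obtain ⟨x, hx, rfl⟩ := List.mem_map.1 hy
      exact (hcQ b x hx).1
    have z2 : ((bv (vals o u Q) b).map Hs.b).sum = 0 := by
      refine List.sum_eq_zero fun y hy => ?_
      obtain ⟨x, hx, rfl⟩ := List.mem_map.1 hy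
      exact (hcQ b x hx).2
    rw [List.map_append, List.sum_append, z1, List.map_append, List.sum_append, z2, add_zero,
      add_zero, one_a, one_b] at h1
    intro x hx
    rcases List.mem_append.1 hx with hx | hx
    · by_cases hC : ∃ C ∈ D, C.2 = b
      · obtain ⟨C, hC, rfl⟩ := hC
        rw [bv_vals_singleton hnd hC] at h1 hx
        simp only [List.map_cons, List.map_nil, List.sum_cons, List.sum_nil, add_zero] at h1
        rw [List.mem_singleton.1 hx]
        exact ⟨h1.1.symm, h1.2.symm⟩
      · rw [bv_vals_nil fun C hC' h => hC ⟨C, hC', h⟩] at hx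
        exact absurd hx (by simp)
    · exact hcQ b x hx
  constructor
  · intro C hC
    have h1 : wval o u C.1 ∈ bv (vals o u (D ++ Q)) C.2 := by
      rw [vals_append, bv_append, bv_vals_singleton hnd hC]
      simp
    have h2 := (key C.2 _ h1).1
    rw [hw C (by simp [hC])] at h2
    exact h2
  · have h1 : ((D ++ Q).map fun C => om f g C.1).sum =
        ((vals o u (D ++ Q)).map fun x => x.1.c).sum := by
      unfold vals
      rw [List.map_map]
      congr 1
      refine List.map_congr_left fun C hC => ?_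
      simp only [Function.comp]
      rw [hw C hC]
    rw [h1, sum_labels _ ((vals o u (D ++ Q)).map Prod.snd).toFinset
      (fun x hx => List.mem_toFinset.2 (List.mem_map_of_mem hx))]
    refine Finset.sum_eq_zero fun b _ => ?_
    have h2 := pc_c (hN Hs o u hV b) (key b)
    rw [← h2]
    rfl

end Pool.Agent.Y761.TP2
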